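import Pool.Agent.R368.Nor.Defs
import Pool.Agent.R368.Sep.Main
import Pool.Agent.R903.CK

/-!
# Normal correspondences and self-dual decompositions
-/

open CategoryTheory CategoryTheory.Limits AlgebraicGeometry Polynomial
open Pool.Agent.H914 Pool.Agent.H914.VarClass Pool.Agent.H914.VarClass.Obj
open Pool.Agent.R903 Pool.Agent.R903.WeilTheory

universe u v w

namespace Pool.Agent.R368

variable {k : Type u} [Field k] {𝒱 : VarClass k} {C : ChowTheory.{u, v} 𝒱}
  {W : WeilTheory.{u, v, w} C} {X : 𝒱.Obj}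

/-! ### Absorbing a phantom -/

/-- Orthogonal idempotents which act as the projectors onto the `H^j(X)` give a Chow–Künneth
decomposition, if the complement is added to the member of degree `m`. -/
theorem isCK_absorb {e : ℕ → CorrRing C X} {m : ℕ} (hm : m ≤ 2 * X.dim)
    (hgr : ∀ j, (CorrRing.of C X).symm (e j) ∈ C.gr (X.prod X) X.dim)
    (hee : ∀ i j, e i * e j = if i = j then e i else 0)
    (hzero : ∀ j, 2 * X.dim < j → e j = 0)
    (hact : ∀ j l, ∀ a ∈ W.gr X l, W.act ((CorrRing.of C X).symm (e j)) a =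
      if l = j then a else 0) :
    W.IsCK X fun j => (CorrRing.of C X).symm
      (e j + if j = m then 1 - ∑ l ∈ Finset.range (2 * X.dim + 1), e l else 0) := by
  classical
  set N := 2 * X.dim + 1 with hN
  set f : CorrRing C X := 1 - ∑ j ∈ Finset.range N, e j with hf
  have hsum_e : ∀ i, i < N → (∑ j ∈ Finset.range N, e j) * e i = e i := by
    intro i hi
    rw [Finset.sum_mul, Finset.sum_eq_single i]
    · rw [hee, if_pos rfl]
    · intro j _ hj; rw [hee, if_neg hj]
    · intro h1; exact absurd (Finset.mem_range.2 hi) h1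
  have he_sum : ∀ i, i < N → e i * (∑ j ∈ Finset.range N, e j) = e i := by
    intro i hi
    rw [Finset.mul_sum, Finset.sum_eq_single i]
    · rw [hee, if_pos rfl]
    · intro j _ hj; rw [hee, if_neg (Ne.symm hj)]
    · intro h1; exact absurd (Finset.mem_range.2 hi) h1
  have hfe : ∀ i, f * e i = 0 := by
    intro i
    by_cases hi : i < N
    · rw [hf, sub_mul, one_mul, hsum_e i hi, sub_self]
    · rw [hzero i (by omega), mul_zero]
  have hef : ∀ i, e i * f = 0 := by
    intro i
    by_cases hi : i < N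
    · rw [hf, mul_sub, mul_one, he_sum i hi, sub_self]
    · rw [hzero i (by omega), zero_mul]
  have hff : f * f = f := by
    have h1 : (∑ j ∈ Finset.range N, e j) * f = 0 := by
      rw [Finset.sum_mul]; exact Finset.sum_eq_zero fun j _ => hef j
    conv_lhs => rw [hf]
    rw [sub_mul, one_mul, ← hf, h1, sub_zero]
  set π : ℕ → CorrRing C X := fun j => e j + if j = m then f else 0 with hπ
  have hππ : ∀ i j, π i * π j = if i = j then π i else 0 := by
    intro i j
    simp only [hπ]
    rw [mul_add, add_mul, add_mul, hee]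
    by_cases hi : i = m
    · by_cases hj : j = m
      · subst hi; subst hj
        rw [if_pos rfl, if_pos rfl, if_pos rfl, hfe, hef, hff]
        abel
      · subst hi
        rw [if_neg (Ne.symm hj), if_pos rfl, if_neg hj, if_neg (Ne.symm hj), hfe, mul_zero,
          mul_zero]
        simp
    · by_cases hj : j = m
      · subst hj
        rw [if_neg hi, if_neg hi, if_pos rfl, if_neg hi, hef, zero_mul, zero_mul]
        simp
      · rw [if_neg hi, if_neg hj, zero_mul, mul_zero, mul_zero]
        simp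
  have hfgr : (CorrRing.of C X).symm f ∈ C.gr (X.prod X) X.dim := by
    rw [hf, map_sub, map_sum]
    exact Submodule.sub_mem _ (C.diagC_mem X) (Submodule.sum_mem _ fun j _ => hgr j)
  have hactf : ∀ l, ∀ a ∈ W.gr X l, W.act ((CorrRing.of C X).symm f) a = 0 := by
    intro l a ha
    rw [hf, map_sub, map_sum, W.act_sub, W.act_sum, LinearMap.sub_apply, LinearMap.sum_apply]
    have h1 : W.act ((CorrRing.of C X).symm 1) a = a := W.act_diagC a
    rw [h1, Finset.sum_congr rfl (fun j _ => hact j l a ha), Finset.sum_ite_eq]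
    by_cases hl : 2 * X.dim < l
    · rw [W.gr_eq_bot X l hl, Submodule.mem_bot] at ha
      rw [ha]; simp
    · rw [if_pos (Finset.mem_range.2 (by omega)), sub_self]
  refine ⟨fun j => ?_, fun j => ?_, fun i j hij => ?_, ?_, fun j => ?_⟩
  · rw [map_add]
    refine Submodule.add_mem _ (hgr j) ?_
    split_ifs
    · exact hfgr
    · exact Submodule.zero_mem _
  · have := hππ j j
    rw [if_pos rfl] at this
    exact this
  · have := hππ j i
    rw [if_neg (Ne.symm hij)] at this
    exact this
  · have h1 : ∑ j ∈ Finset.range N, π j = 1 := by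
      simp only [hπ]
      rw [Finset.sum_add_distrib, Finset.sum_ite_eq', if_pos (Finset.mem_range.2 (by omega)), hf]
      abel
    exact h1
  · intro l a ha
    rw [map_add, W.act_add, LinearMap.add_apply, hact j l a ha]
    by_cases hj : j = m
    · rw [if_pos hj, hactf l a ha, add_zero]
    · rw [if_neg hj, map_zero, W.act_zero, LinearMap.zero_apply, add_zero]

/-! ### The transpose -/

lemma transposeOf_eq (γ : C.CH (X.prod X)) : transposeOf C γ = C.transp γ := rfl

lemma transp_transp (γ : C.CH (X.prod X)) : C.transp (C.transp γ) = γ := by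
  rw [ChowTheory.transp, ChowTheory.transp, ← C.pull_comp]
  have : swap X X ≫ swap X X = 𝟙 _ := by apply hom_ext_prod <;> simp
  rw [this, C.pull_id]

lemma transp_smul (q : ℚ) (γ : C.CH (X.prod X)) : C.transp (q • γ) = q • C.transp γ := by
  rw [ChowTheory.transp, map_smul]; rfl

lemma transp_add (γ δ : C.CH (X.prod X)) : C.transp (γ + δ) = C.transp γ + C.transp δ := by
  rw [ChowTheory.transp, map_add]; rfl

lemma transp_cpow (g : C.CH (X.prod X)) (m : ℕ) :
    C.transp (cpow C g m) = cpow C (C.transp g) m := by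
  have key : ∀ (g : C.CH (X.prod X)) (m : ℕ), C.comp (cpow C g m) g = C.comp g (cpow C g m) := by
    intro g m
    have h1 : CorrRing.of C X g * CorrRing.of C X g ^ m =
        CorrRing.of C X g ^ m * CorrRing.of C X g := (Commute.pow_right rfl m).eq
    rw [← of_cpow] at h1
    exact h1
  induction m with
  | zero => exact C.transp_diagC X
  | succ m ih =>
    show C.transp (C.comp (cpow C g m) g) = C.comp (cpow C (C.transp g) m) (C.transp g)
    rw [← C.comp_transp, ih, key]

lemma transp_cpoly (g : C.CH (X.prod X)) (p : ℚ[X]) :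
    C.transp (cpoly C p g) = cpoly C p (C.transp g) := by
  rw [cpoly, polySum, Polynomial.sum, C.transp_sum, cpoly, polySum, Polynomial.sum]
  refine Finset.sum_congr rfl fun i _ => ?_
  rw [transp_smul, transp_cpow]

/-- Polynomials in commuting correspondences commute. -/
lemma comm_cpoly {γ g : C.CH (X.prod X)} (h : Comm C γ g) (p q : ℚ[X]) :
    Comm C (cpoly C p γ) (cpoly C q g) := by
  have h1 : Commute (CorrRing.of C X g) (CorrRing.of C X γ) := h
  have h3 : ∀ (a b : CorrRing C X) (q : ℚ[X]), Commute a b → Commute (aeval a q) b := by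
    intro a b q hab
    induction q using Polynomial.induction_on' with
    | add p q hp hq => rw [map_add]; exact hp.add_left hq
    | monomial n c =>
      rw [aeval_monomial]
      exact (Algebra.commute_algebraMap_left c b).mul_left (hab.pow_left n)
  have h2 : Commute (CorrRing.of C X (cpoly C q g)) (CorrRing.of C X (cpoly C p γ)) := by
    rw [of_cpoly, of_cpoly]
    exact h3 _ _ _ (h3 _ _ _ h1.symm).symm
  exact h2

lemma comm_cpoly_right {γ g : C.CH (X.prod X)} (h : Comm C γ g) (q : ℚ[X]) :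
    Comm C γ (cpoly C q g) := by
  have h1 := comm_cpoly h Polynomial.X q
  have h2 : cpoly C Polynomial.X γ = γ := by rw [cpoly_eq, aeval_X]; rfl
  rwa [h2] at h1

lemma comm_cpoly_left {γ g : C.CH (X.prod X)} (h : Comm C γ g) (q : ℚ[X]) :
    Comm C (cpoly C q γ) g := by
  have h1 := comm_cpoly h q Polynomial.X
  have h2 : cpoly C Polynomial.X g = g := by rw [cpoly_eq, aeval_X]; rfl
  rwa [h2] at h1

/-! ### The criterion -/

/-- A Chow–Künneth decomposition whose members commute with their transposes yields a self-dual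
one. -/
theorem hasSelfDualCK_of_commuting (h : HasCommutingCK W X) : HasSelfDualCK W X := by
  classical
  obtain ⟨π, hπ, hc⟩ := h
  set ρ := transCK C π with hρ
  have hρCK : W.IsCK X ρ := hπ.transp
  have hcomm : ∀ i j, C.comp (ρ i) (π j) = C.comp (π j) (ρ i) := by
    intro i j
    rw [hρ, transCK]
    split_ifs with h1
    · exact hc _ j
    · rw [C.zero_comp, C.comp_zero]
  set e : ℕ → CorrRing C X := fun j => CorrRing.of C X (C.comp (π j) (ρ j)) with he
  have hgr : ∀ j, (CorrRing.of C X).symm (e j) ∈ C.gr (X.prod X) X.dim := fun j =>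
    C.comp_mem (hπ.mem j) (hρCK.mem j) rfl
  have hee : ∀ i j, e i * e j = if i = j then e i else 0 := by
    intro i j
    have h1 : e i * e j = CorrRing.of C X (C.comp (C.comp (π j) (ρ j)) (C.comp (π i) (ρ i))) := rfl
    have h2 : C.comp (C.comp (π j) (ρ j)) (C.comp (π i) (ρ i)) =
        C.comp (C.comp (π j) (π i)) (C.comp (ρ j) (ρ i)) := by
      rw [C.comp_assoc, ← C.comp_assoc (ρ j), hcomm, C.comp_assoc, ← C.comp_assoc, ← C.comp_assoc,
        C.comp_assoc]
    rw [h1, h2, hπ.comp_eq, hρCK.comp_eq]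
    split_ifs with h3 h4 h4
    · subst h3; rfl
    · exact absurd h3.symm h4
    · exact absurd h4.symm h3
    · rw [C.comp_zero, map_zero]
  have hzero : ∀ j, 2 * X.dim < j → e j = 0 := by
    intro j hj
    simp only [he]
    rw [hπ.eq_zero hj, C.zero_comp, map_zero]
  have hact : ∀ j l, ∀ a ∈ W.gr X l, W.act ((CorrRing.of C X).symm (e j)) a =
      if l = j then a else 0 := by
    intro j l a ha
    show W.act (C.comp (π j) (ρ j)) a = _
    rw [W.act_comp _ (hρCK.mem j), hπ.proj j l a ha]
    split_ifs with h1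
    · rw [hρCK.proj j l a ha, if_pos h1]
    · rw [map_zero]
  have hCK := isCK_absorb (W := W) (m := X.dim) (by omega) hgr hee hzero hact
  have htr : ∀ j ≤ 2 * X.dim, C.transp ((CorrRing.of C X).symm (e j)) =
      (CorrRing.of C X).symm (e (2 * X.dim - j)) := by
    intro j hj
    show C.transp (C.comp (π j) (ρ j)) = C.comp (π (2 * X.dim - j)) (ρ (2 * X.dim - j))
    have h1 : C.transp (ρ j) = π (2 * X.dim - j) := by
      rw [hρ, transCK, if_pos hj, transp_transp]
    have h2 : ρ (2 * X.dim - j) = C.transp (π j) := by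
      rw [hρ, transCK, if_pos (by omega)]
      congr 2
      omega
    rw [← C.comp_transp, h1, h2]
  have hsum : C.transp ((CorrRing.of C X).symm (1 - ∑ l ∈ Finset.range (2 * X.dim + 1), e l)) =
      (CorrRing.of C X).symm (1 - ∑ l ∈ Finset.range (2 * X.dim + 1), e l) := by
    have h3 : ∑ j ∈ Finset.range (2 * X.dim + 1), C.transp ((CorrRing.of C X).symm (e j)) =
        ∑ j ∈ Finset.range (2 * X.dim + 1), (CorrRing.of C X).symm (e j) := by
      rw [← Finset.sum_range_reflect (fun j => (CorrRing.of C X).symm (e j))]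
      refine Finset.sum_congr rfl fun j hj => ?_
      rw [htr j (by have := Finset.mem_range.1 hj; omega)]
      congr 2
    rw [map_sub, map_sum]
    have h4 : ∀ a b : C.CH (X.prod X), C.transp (a - b) = C.transp a - C.transp b := by
      intro a b
      rw [ChowTheory.transp, map_sub]; rfl
    rw [h4, C.transp_sum, h3]
    congr 1
    exact C.transp_diagC X
  refine ⟨_, hCK, fun j hj => ?_⟩
  rw [transposeOf_eq, map_add, transp_add, htr j hj, map_add]
  congr 1
  by_cases h1 : j = X.dim
  · rw [if_pos h1, if_pos (by omega), hsum]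
  · rw [if_neg h1, if_neg (by omega), map_zero, C.transp_zero]

lemma IsSelfDualCK.transp {π : ℕ → C.CH (X.prod X)} (h : IsSelfDualCK W X π) {j : ℕ}
    (hj : j ≤ 2 * X.dim) : C.transp (π j) = π (2 * X.dim - j) := h.2 j hj

lemma IsSelfDualCK.commuting {π : ℕ → C.CH (X.prod X)} (h : IsSelfDualCK W X π) (i j : ℕ) :
    Comm C (transposeOf C (π i)) (π j) := by
  rw [transposeOf_eq, Comm]
  by_cases hi : i ≤ 2 * X.dim
  · rw [h.transp hi, h.1.comp_eq, h.1.comp_eq]
    split_ifs with h1 h2 h2
    · rw [h1]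
    · exact absurd h1.symm h2
    · exact absurd h2.symm h1
    · rfl
  · rw [h.1.eq_zero (by omega), C.transp_zero, C.zero_comp, C.comp_zero]

/-! ### Algebraic correspondences -/

/-- A polynomial in an algebraic correspondence is algebraic. -/
theorem Algebraic.exists_poly {g : C.CH (X.prod X)} (h : Algebraic C g) (p : ℚ[X]) :
    ∃ R : ℚ[X], R ≠ 0 ∧ aeval (CorrRing.of C X (cpoly C p g)) R = 0 := by
  obtain ⟨Q, hQ, h0⟩ := h
  have h1 : aeval (CorrRing.of C X g) Q = 0 := by rw [← of_cpoly, h0, map_zero]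
  have : Module.Finite ℚ (AdjoinRoot Q) := (AdjoinRoot.powerBasis hQ).finite
  obtain ⟨R, hR, hR'⟩ : ∃ R : ℚ[X], R ≠ 0 ∧ aeval (AdjoinRoot.mk Q p) R = 0 := by
    have := Algebra.IsAlgebraic.isAlgebraic (R := ℚ) (AdjoinRoot.mk Q p)
    exact this
  have h2 : Q ∣ R.comp p := by
    rw [← AdjoinRoot.mk_eq_zero]
    have h3 : AdjoinRoot.mk Q (R.comp p) = aeval (AdjoinRoot.mk Q p) R := by
      have h4 : (AdjoinRoot.mkₐ Q) (aeval p R) = aeval ((AdjoinRoot.mkₐ Q) p) R :=
        (aeval_algHom_apply (AdjoinRoot.mkₐ Q) p R).symm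
      rw [comp_eq_aeval]
      exact h4
    rw [h3, hR']
  obtain ⟨S, hS⟩ := h2
  refine ⟨R, hR, ?_⟩
  rw [of_cpoly, ← aeval_comp, hS, map_mul, h1, zero_mul]

theorem hasCKIn_of_algebraic {g : C.CH (X.prod X)} (h : Separates W X g) (ha : Algebraic C g) :
    HasCKIn W X g := by
  obtain ⟨p, hp⟩ := h.exists_degree
  obtain ⟨R, hR, hR'⟩ := ha.exists_poly p
  obtain ⟨π, hπ, hπ'⟩ := exists_CK_poly hp hR hR'
  refine ⟨π, hπ, fun j => ?_⟩
  obtain ⟨q, hq⟩ := hπ' j
  exact ⟨q.comp p, by rw [hq, ← cpoly_eq, cpoly_comp]⟩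

theorem hasCommutingCK_of_normal {g : C.CH (X.prod X)} (h : HasCKIn W X g) (hn : Normal C g) :
    HasCommutingCK W X := by
  obtain ⟨π, hπ, hp⟩ := h
  refine ⟨π, hπ, fun i j => ?_⟩
  obtain ⟨p, hpi⟩ := hp i
  obtain ⟨q, hqj⟩ := hp j
  rw [transposeOf_eq, hpi, hqj, transp_cpoly]
  exact comm_cpoly hn p q

/-- The degree operator of a self-dual decomposition is normal, algebraic and separates the
degrees. -/
theorem exists_normal (h : HasSelfDualCK W X) :
    ∃ g, Separates W X g ∧ Algebraic C g ∧ Normal C g := by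
  obtain ⟨π, hπ⟩ := h
  have hd := degCK_isDegree hπ.1
  refine ⟨degCK π, ⟨hd.1, fun j => Polynomial.X - Polynomial.C (j : ℚ), ?_, ?_⟩, ?_, ?_⟩
  · intro i _ j _ hij
    apply isCoprime_X_sub_C_of_isUnit_sub
    rw [isUnit_iff_ne_zero, sub_ne_zero]
    exact_mod_cast hij
  · intro j hj a ha
    have h1 : W.act (degCK π) a = (((j : ℚ) : ℚ) : W.K) • a := by
      rw [hd.2 j a ha]; push_cast; rfl
    rw [cpoly_eq, act_aeval hd.1 h1]
    simp
  · refine ⟨pol (Finset.range (2 * X.dim + 1)), pol_ne_zero _, ?_⟩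
    rw [cpoly_eq, aeval_degCK hπ.1]
    refine Finset.sum_eq_zero fun j hj => ?_
    rw [pol_eval_mem hj, zero_smul]
  · show C.comp (C.transp (degCK π)) (degCK π) = C.comp (degCK π) (C.transp (degCK π))
    have h1 : C.transp (degCK π) = ∑ j ∈ Finset.range (2 * X.dim + 1), (j : ℚ) • C.transp (π j) := by
      rw [degCK, C.transp_sum]
      exact Finset.sum_congr rfl fun j _ => transp_smul _ _
    rw [h1, C.sum_comp, C.comp_sum]
    refine Finset.sum_congr rfl fun j hj => ?_
    rw [C.smul_comp, C.comp_smul, hπ.transp (by have := Finset.mem_range.1 hj; omega), comp_degCK hπ.1,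
      degCK_comp hπ.1]

theorem selfDual_iff_normal :
    HasSelfDualCK W X ↔ ∃ g, Separates W X g ∧ Algebraic C g ∧ Normal C g :=
  ⟨exists_normal, fun ⟨_, h1, h2, h3⟩ =>
    hasSelfDualCK_of_commuting (hasCommutingCK_of_normal (hasCKIn_of_algebraic h1 h2) h3)⟩

theorem selfDual_iff_commuting : HasSelfDualCK W X ↔ HasCommutingCK W X :=
  ⟨fun ⟨π, h⟩ => ⟨π, h.1, h.commuting⟩, hasSelfDualCK_of_commuting⟩

/-! ### Uniqueness -/

lemma homTriv_sub_of_CK {π ρ : ℕ → C.CH (X.prod X)} (hπ : W.IsCK X π) (hρ : W.IsCK X ρ) (j : ℕ) :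
    HomTriv W X (π j - ρ j) := by
  refine ⟨Submodule.sub_mem _ (hπ.mem j) (hρ.mem j), fun c => ?_⟩
  refine gr_induction (W.isInternal X) (p := fun c => W.act (π j - ρ j) c = 0) ?_ ?_ c
  · intro l a ha
    rw [W.act_sub, LinearMap.sub_apply, hπ.proj j l a ha, hρ.proj j l a ha, sub_self]
  · intro a b ha hb
    rw [map_add, ha, hb, add_zero]

lemma eq_of_idempotents {A : Type*} [Ring A] {a b : A} (ha : a * a = a) (hb : b * b = b)
    (hab : a * b = b * a) {r : ℕ} (h : (a - b) ^ r = 0) : a = b := by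
  have h1 : (a - b) * (a - b) * (a - b) = a - b := by
    have h2 : (a - b) * (a - b) = a + b - (a * b + a * b) := by
      rw [mul_sub, sub_mul, sub_mul, ha, hb, ← hab]; abel
    rw [h2]
    have h3 : a * b * a = a * b := by rw [mul_assoc, ← hab, ← mul_assoc, ha]
    have h4 : a * b * b = a * b := by rw [mul_assoc, hb]
    rw [sub_mul, add_mul, add_mul, mul_sub, mul_sub, mul_sub, ha, hb, h3, h4, ← hab]
    abel
  have h2 : ∀ n : ℕ, (a - b) ^ (2 * n + 1) = a - b := by
    intro n
    induction n with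
    | zero => simp
    | succ n ih =>
      have : (a - b) ^ (2 * (n + 1) + 1) = (a - b) ^ (2 * n + 1) * (a - b) * (a - b) := by
        rw [show 2 * (n + 1) + 1 = (2 * n + 1) + 1 + 1 by ring, pow_succ, pow_succ]
      rw [this, ih, h1]
  have h3 := h2 r
  rw [show 2 * r + 1 = r + (r + 1) by ring, pow_add, h, zero_mul] at h3
  exact sub_eq_zero.1 h3.symm

theorem unique_of_commutant {g : C.CH (X.prod X)} (hN : CommutantNil W X g)
    {π ρ : ℕ → C.CH (X.prod X)} (hπ : W.IsCK X π) (hp : ∀ j, ∃ p : ℚ[X], π j = cpoly C p g)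
    (hρ : W.IsCK X ρ) (hc : ∀ j, Comm C (ρ j) g) : ρ = π := by
  funext j
  obtain ⟨p, hpj⟩ := hp j
  have hcomm : Comm C (ρ j) (π j) := by rw [hpj]; exact comm_cpoly_right (hc j) p
  have hg : Comm C (π j) g := by
    rw [hpj]; exact comm_cpoly_left (rfl : Comm C g g) p
  obtain ⟨r, hr⟩ := hN (ρ j - π j) (homTriv_sub_of_CK hρ hπ j) (by
    show C.comp (ρ j - π j) g = C.comp g (ρ j - π j)
    rw [sub_comp, comp_sub, hc j, hg])
  have h1 : (CorrRing.of C X (ρ j) - CorrRing.of C X (π j)) ^ r = 0 := by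
    rw [← map_sub, ← of_cpow, hr, map_zero]
  have h2 := eq_of_idempotents (a := CorrRing.of C X (ρ j)) (b := CorrRing.of C X (π j))
    (hρ.idem j) (hπ.idem j) hcomm.symm h1
  exact (CorrRing.of C X).injective h2

theorem uniqueSelfDual_of_normal {g : C.CH (X.prod X)} (h : Separates W X g)
    (hN : CommutantNil W X g) (hn : Normal C g) : UniqueSelfDualCK W X g := by
  obtain ⟨π, hπ, hp⟩ := hasCKIn_of_commutant h hN
  refine ⟨π, ⟨hπ, ?_⟩, hp, fun ρ hρ hc => unique_of_commutant hN hπ hp hρ hc⟩
  have h1 : transCK C π = π := by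
    apply unique_of_commutant hN hπ hp hπ.transp
    intro j
    rw [transCK]
    split_ifs with hj
    · obtain ⟨p, hpj⟩ := hp (2 * X.dim - j)
      rw [hpj, transp_cpoly]
      exact comm_cpoly_left hn p
    · show C.comp 0 g = C.comp g 0
      rw [C.zero_comp, C.comp_zero]
  intro j hj
  rw [transposeOf_eq]
  have h2 := congrFun h1 (2 * X.dim - j)
  rw [transCK, if_pos (by omega)] at h2
  rw [← h2]
  congr 2
  omega

/-! ### Endomorphisms -/

/-- If `a b = m` with `m ≠ 0` and `a` is a zero of a nonzero polynomial then `b` is a polynomial in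
`a`. -/
lemma exists_poly_of_right_inverse {A : Type*} [Ring A] [Algebra ℚ A] {a b : A} {m : ℚ}
    (hm : m ≠ 0) (hab : a * b = m • 1) {Q : ℚ[X]} (hQ : Q ≠ 0) (h : aeval a Q = 0) :
    ∃ R : ℚ[X], b = aeval a R := by
  -- remove the factor `X ^ s`
  have key : ∀ (s : ℕ) (Q : ℚ[X]), aeval a (Polynomial.X ^ s * Q) = 0 → aeval a Q = 0 := by
    intro s
    induction s with
    | zero => intro Q h; simpa using h
    | succ s ih =>
      intro Q h
      apply ih
      rw [pow_succ, mul_assoc, mul_comm Polynomial.X Q, ← mul_assoc, map_mul, aeval_X] at h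
      have h1 : (aeval a (Polynomial.X ^ s * Q) * a) * b = 0 := by rw [h, zero_mul]
      rw [mul_assoc, hab, mul_smul_comm, mul_one] at h1
      exact (smul_eq_zero.1 h1).resolve_left hm
  obtain ⟨q, hq, hndvd⟩ := Polynomial.exists_eq_pow_rootMultiplicity_mul_and_not_dvd Q hQ (0 : ℚ)
  rw [map_zero, sub_zero] at hq hndvd
  rw [hq] at h
  have h1 := key _ _ h
  have hq0 : q.coeff 0 ≠ 0 := fun h0 => hndvd (X_dvd_iff.2 h0)
  obtain ⟨R, hR⟩ : ∃ R, q = Polynomial.C (q.coeff 0) + R * Polynomial.X := by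
    refine ⟨q.divX, ?_⟩
    rw [add_comm]
    exact (divX_mul_X_add q).symm
  rw [hR, map_add, map_mul, aeval_X, aeval_C] at h1
  have h2 : aeval a R * a = -algebraMap ℚ A (q.coeff 0) := by
    rw [eq_neg_iff_add_eq_zero, add_comm]; exact h1
  have h3 : (aeval a R * a) * b = m • aeval a R := by
    rw [mul_assoc, hab, mul_smul_comm, mul_one]
  rw [h2, neg_mul, Algebra.algebraMap_eq_smul_one, smul_mul_assoc, one_mul] at h3
  refine ⟨Polynomial.C (-(q.coeff 0)⁻¹ * m) * R, ?_⟩
  rw [map_mul, aeval_C, ← Algebra.smul_def, mul_smul, ← h3, smul_neg, neg_smul, neg_neg, smul_smul,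
    inv_mul_cancel₀ hq0, one_smul]

lemma transp_graph (f : X ⟶ X) : C.transp (graphOf C f) = C.cograph f := by
  apply C.push_injective (swap X X)
  rw [ChowTheory.transp, C.push_pull_iso, graphOf, ChowTheory.cograph, ChowTheory.span,
    ← C.push_comp]
  congr 2
  apply hom_ext_prod <;> simp

theorem normal_of_algebraic (f : X ⟶ X) {m : ℚ} (hm0 : m ≠ 0) (hm : HasDegree (C.push f) m)
    (ha : Algebraic C (graphOf C f)) : Normal C (graphOf C f) := by
  obtain ⟨Q, hQ, h0⟩ := ha
  have h1 : aeval (CorrRing.of C X (graphOf C f)) Q = 0 := by rw [← of_cpoly, h0, map_zero]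
  have h2 : CorrRing.of C X (graphOf C f) * CorrRing.of C X (C.cograph f) = m • 1 :=
    congrArg (CorrRing.of C X) (cograph_comp_graph f hm)
  obtain ⟨R, hR⟩ := exists_poly_of_right_inverse hm0 h2 hQ h1
  rw [Normal, transposeOf_eq, transp_graph]
  have h3 : C.cograph f = cpoly C R (graphOf C f) := by
    rw [cpoly_eq, ← hR]; rfl
  rw [h3]
  exact comm_cpoly_left (rfl : Comm C (graphOf C f) (graphOf C f)) R

theorem hasSelfDualCK_of_endomorphism (f : X ⟶ X) {m : ℚ} (hm0 : m ≠ 0)
    (hm : HasDegree (C.push f) m) (h : Separates W X (graphOf C f))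
    (ha : Algebraic C (graphOf C f)) : HasSelfDualCK W X :=
  selfDual_iff_normal.2 ⟨_, h, ha, normal_of_algebraic f hm0 hm ha⟩

lemma commutantNil_of_eigenNil (f : X ⟶ X) {m : ℚ} (hm : HasDegree (C.push f) m)
    (hN : EigenNil W X f m) : CommutantNil W X (graphOf C f) := by
  intro γ hγ hc
  apply hN γ hγ
  have hc' : C.comp γ (C.graph f) = C.comp (C.graph f) γ := hc
  show C.push (prodMap f f) γ = m • γ
  rw [← cograph_comp_comp_graph, hc', ← C.comp_assoc, cograph_comp_graph f hm, C.smul_comp,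
    C.diagC_comp]

lemma one_ne_zero_H (hP : C.Polarized) (X : 𝒱.Obj) : (1 : W.H X) ≠ 0 := by
  intro h
  obtain ⟨D, _, hdeg⟩ := hP X
  apply hdeg
  have h1 : (C.deg X (D ^ X.dim) : W.K) = 0 := by
    rw [← W.tr_cl, ← mul_one (W.cl X (D ^ X.dim)), h, mul_zero, map_zero]
  exact_mod_cast h1

/-- If `dim X > 0` then a degree operator is not a constant polynomial in `g`. -/
lemma ne_C_of_isDegree (hP : C.Polarized) {g : C.CH (X.prod X)} {p : ℚ[X]}
    (hp : W.IsDegree X (cpoly C p g)) (hn : 0 < X.dim) (c : ℚ) : p ≠ Polynomial.C c := by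
  rintro rfl
  have h1 : ∀ a : W.H X, W.act (cpoly C (Polynomial.C c) g) a = (c : W.K) • a := by
    intro a
    have h2 : cpoly C (Polynomial.C c) g = c • C.diagC X := by
      have := cpoly_C_mul (C := C) c 1 g
      rwa [mul_one, cpoly_one] at this
    rw [h2, W.act_smul, LinearMap.smul_apply, W.act_diagC]
  have hc : c = 0 := by
    have h2 := hp.2 0 1 (W.one_mem X)
    rw [h1, Nat.cast_zero, zero_smul] at h2
    exact_mod_cast (smul_eq_zero.1 h2).resolve_right (one_ne_zero_H hP X)
  apply one_ne_zero_H (W := W) hP X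
  apply W.nondeg
  intro b
  refine gr_induction (W.isInternal X) (p := fun b => W.tr X (1 * b) = 0) ?_ ?_ b
  · intro l b hb
    rw [one_mul]
    by_cases hl : l = 2 * X.dim
    · have h2 := hp.2 l b hb
      rw [h1, hc, Rat.cast_zero, zero_smul] at h2
      have h3 : b = 0 := (smul_eq_zero.1 h2.symm).resolve_left (by
        rw [hl]; exact_mod_cast (by omega : 2 * X.dim ≠ 0))
      rw [h3, map_zero]
    · exact W.tr_eq_zero hb hl
  · intro a b ha hb
    rw [mul_add, map_add, ha, hb, add_zero]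

theorem algebraic_of_commutantNil (hP : C.Polarized) {g : C.CH (X.prod X)} (h : Separates W X g)
    (hN : CommutantNil W X g) (hn : 0 < X.dim) : Algebraic C g := by
  obtain ⟨p, hp⟩ := h.exists_degree
  set P := (pol (Finset.range (2 * X.dim + 1))).comp p with hPdef
  have hu : (CorrRing.of C X).symm (aeval (CorrRing.of C X (cpoly C p g))
      (pol (Finset.range (2 * X.dim + 1)))) = cpoly C P g := by
    rw [← cpoly_eq, cpoly_comp]
  have hH := homTriv_pol hp
  rw [hu] at hH
  obtain ⟨r, hr⟩ := hN _ hH (comm_cpoly_left (rfl : Comm C g g) P)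
  refine ⟨P ^ r, pow_ne_zero r ?_, ?_⟩
  · intro h0
    rcases Polynomial.comp_eq_zero_iff.1 h0 with h1 | ⟨_, h1⟩
    · exact pol_ne_zero _ h1
    · exact ne_C_of_isDegree hP hp hn _ h1
  · rw [cpoly_eq, map_pow]
    have h3 := of_cpow (cpoly C P g) r
    rw [hr, map_zero, of_cpoly] at h3
    rw [← h3, map_zero]

theorem uniqueSelfDual_of_endomorphism (hP : C.Polarized) (f : X ⟶ X) {m : ℚ} (hm0 : m ≠ 0)
    (hm : HasDegree (C.push f) m) (h : Separates W X (graphOf C f)) (hN : EigenNil W X f m) :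
    UniqueSelfDualCK W X (graphOf C f) := by
  have hN' := commutantNil_of_eigenNil f hm hN
  rcases Nat.eq_zero_or_pos X.dim with hn | hn
  · obtain ⟨π, hπ, hp⟩ := hasCKIn_of_commutant h hN'
    refine ⟨π, ⟨hπ, fun j hj => ?_⟩, hp, fun ρ hρ hc => unique_of_commutant hN' hπ hp hρ hc⟩
    have hj0 : j = 0 := by omega
    have h1 : π 0 = C.diagC X := by
      have h2 := hπ.sum
      rw [hn] at h2
      simpa using h2
    subst hj0
    rw [hn, transposeOf_eq]
    show C.transp (π 0) = π 0
    rw [h1]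
    exact C.transp_diagC X
  · exact uniqueSelfDual_of_normal h hN' (normal_of_algebraic f hm0 hm
      (algebraic_of_commutantNil hP h hN' hn))

/-! ### Algebraic homologically trivial correspondences -/

theorem exists_isDegree (h : KunnethFor W X) : ∃ d, W.IsDegree X d := by
  have h' : ∀ j : ℕ, ∃ π ∈ C.gr (X.prod X) X.dim, IsProjector (W.gr X) j (W.act π) := h
  choose π hmem hproj using h'
  refine ⟨∑ j ∈ Finset.range (2 * X.dim + 1), (j : ℚ) • π j,
    Submodule.sum_mem _ fun j _ => Submodule.smul_mem _ _ (hmem j), fun l a ha => ?_⟩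
  rw [W.act_sum, LinearMap.sum_apply]
  by_cases hl : 2 * X.dim < l
  · rw [W.gr_eq_bot X l hl, Submodule.mem_bot] at ha
    rw [ha]; simp
  · rw [Finset.sum_eq_single l]
    · rw [W.act_smul, LinearMap.smul_apply, hproj l l a ha, if_pos rfl]; push_cast; rfl
    · intro j _ hjl
      rw [W.act_smul, LinearMap.smul_apply, hproj j l a ha, if_neg (Ne.symm hjl), smul_zero]
    · intro h1; exact absurd (Finset.mem_range.2 (by omega)) h1

lemma separates_of_isDegree {d : C.CH (X.prod X)} (hd : W.IsDegree X d) : Separates W X d := by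
  refine ⟨hd.1, fun j => Polynomial.X - Polynomial.C (j : ℚ), ?_, ?_⟩
  · intro i _ j _ hij
    apply isCoprime_X_sub_C_of_isUnit_sub
    rw [isUnit_iff_ne_zero, sub_ne_zero]
    exact_mod_cast hij
  · intro j hj a ha
    have h1 : W.act d a = (((j : ℚ) : ℚ) : W.K) • a := by
      rw [hd.2 j a ha]; push_cast; rfl
    rw [cpoly_eq, act_aeval hd.1 h1]
    simp

/-- A degree operator is algebraic if its defect is. -/
lemma algebraic_of_defect {d : C.CH (X.prod X)}
    (h : Algebraic C (cpoly C (pol (Finset.range (2 * X.dim + 1))) d)) : Algebraic C d := by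
  obtain ⟨Q, hQ, h0⟩ := h
  refine ⟨Q.comp (pol (Finset.range (2 * X.dim + 1))), ?_, by rw [← cpoly_comp, h0]⟩
  intro h1
  rcases Polynomial.comp_eq_zero_iff.1 h1 with h2 | ⟨_, h2⟩
  · exact hQ h2
  · have h3 : (pol (Finset.range (2 * X.dim + 1))).natDegree = 2 * X.dim + 1 := by
      rw [pol, Polynomial.natDegree_prod_of_monic _ _ fun j _ => monic_X_sub_C _,
        Finset.sum_congr rfl fun j _ => natDegree_X_sub_C _]
      simp
    rw [h2, natDegree_C] at h3
    omega

theorem hasSelfDualCK_of_algebraic (hK : KunnethFor W X) (hA : HomTrivAlgebraic W X) :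
    HasSelfDualCK W X := by
  obtain ⟨d₀, hd₀⟩ := exists_isDegree hK
  have h4 : ∀ a b : C.CH (X.prod X), C.transp (a - b) = C.transp a - C.transp b := by
    intro a b
    rw [ChowTheory.transp, map_sub]; rfl
  set d : C.CH (X.prod X) :=
    (1 / 2 : ℚ) • (d₀ + ((2 * X.dim : ℚ) • C.diagC X - C.transp d₀)) with hdef
  have hd : W.IsDegree X d := by
    refine ⟨Submodule.smul_mem _ _ (Submodule.add_mem _ hd₀.1 (Submodule.sub_mem _
      (Submodule.smul_mem _ _ (C.diagC_mem X)) (C.transp_mem hd₀.1))), fun j a ha => ?_⟩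
    have h1 : W.act (C.transp d₀) a = ((2 * X.dim - j : ℕ) : W.K) • a := by
      rw [W.act_transp]
      exact W.coact_scal hd₀.1 (fun l => (l : W.K)) hd₀.2 ha
    by_cases hj : 2 * X.dim < j
    · rw [W.gr_eq_bot X j hj, Submodule.mem_bot] at ha
      rw [ha]; simp
    · rw [hdef, W.act_smul, LinearMap.smul_apply, W.act_add, LinearMap.add_apply, W.act_sub,
        LinearMap.sub_apply, W.act_smul, LinearMap.smul_apply, W.act_diagC, h1, hd₀.2 j a ha,
        ← sub_smul, ← add_smul, smul_smul]
      congr 1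
      rw [Nat.cast_sub (by omega)]
      push_cast
      ring
  have htr : C.transp d = (2 * X.dim : ℚ) • C.diagC X - d := by
    rw [hdef, transp_smul, transp_add, h4, transp_smul, C.transp_diagC, transp_transp]
    module
  clear_value d
  refine selfDual_iff_normal.2 ⟨d, separates_of_isDegree hd, algebraic_of_defect ?_, ?_⟩
  · apply hA
    have := homTriv_pol hd
    rwa [← cpoly_eq] at this
  · show C.comp (C.transp d) d = C.comp d (C.transp d)
    rw [htr, sub_comp, comp_sub, C.smul_comp, C.comp_smul, C.diagC_comp, C.comp_diagC]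

end Pool.Agent.R368
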