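import Pool.Agent.R368.Sep.Defs

/-!
# Normal correspondences and self-dual decompositions: definitions
-/

open CategoryTheory CategoryTheory.Limits AlgebraicGeometry
open Pool.Agent.H914 Pool.Agent.H914.VarClass Pool.Agent.H914.VarClass.Obj
open Pool.Agent.R903 Pool.Agent.R368

universe u v w

namespace Pool.Agent.R368

variable {k : Type u} [Field k] {𝒱 : VarClass k} {C : ChowTheory.{u, v} 𝒱}

/-- The transpose `σ^* γ` of a correspondence `γ` from `X` to `X`, where `σ` is the swap of the two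
factors of `X × X`. -/
noncomputable def transposeOf (C : ChowTheory.{u, v} 𝒱) {X : 𝒱.Obj} (γ : C.CH (X.prod X)) :
    C.CH (X.prod X) :=
  C.pull (lift (snd X X) (fst X X)) γ

/-- `g` is normal: it commutes with its transpose. -/
def Normal (C : ChowTheory.{u, v} 𝒱) {X : 𝒱.Obj} (g : C.CH (X.prod X)) : Prop :=
  Comm C (transposeOf C g) g

/-- `g` is algebraic: it is a zero of a nonzero polynomial with rational coefficients. -/
def Algebraic (C : ChowTheory.{u, v} 𝒱) {X : 𝒱.Obj} (g : C.CH (X.prod X)) : Prop :=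
  ∃ Q : Polynomial ℚ, Q ≠ 0 ∧ cpoly C Q g = 0

/-- `π` is a self-dual Chow–Künneth decomposition of `X`. -/
def IsSelfDualCK (W : WeilTheory.{u, v, w} C) (X : 𝒱.Obj) (π : ℕ → C.CH (X.prod X)) : Prop :=
  W.IsCK X π ∧ ∀ j ≤ 2 * X.dim, transposeOf C (π j) = π (2 * X.dim - j)

/-- `X` has a self-dual Chow–Künneth decomposition. -/
def HasSelfDualCK (W : WeilTheory.{u, v, w} C) (X : 𝒱.Obj) : Prop :=
  ∃ π : ℕ → C.CH (X.prod X), IsSelfDualCK W X π

/-- `X` has a Chow–Künneth decomposition whose members commute with their transposes. -/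
def HasCommutingCK (W : WeilTheory.{u, v, w} C) (X : 𝒱.Obj) : Prop :=
  ∃ π : ℕ → C.CH (X.prod X), W.IsCK X π ∧ ∀ i j, Comm C (transposeOf C (π i)) (π j)

/-- `X` has a Chow–Künneth decomposition which is self-dual, consists of polynomials in `g`, and is
the only Chow–Künneth decomposition of `X` whose members commute with `g`. -/
def UniqueSelfDualCK (W : WeilTheory.{u, v, w} C) (X : 𝒱.Obj) (g : C.CH (X.prod X)) : Prop :=
  ∃ π : ℕ → C.CH (X.prod X), IsSelfDualCK W X π ∧ (∀ j, ∃ p : Polynomial ℚ, π j = cpoly C p g) ∧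
    ∀ ρ : ℕ → C.CH (X.prod X), W.IsCK X ρ → (∀ j, Comm C (ρ j) g) → ρ = π

/-- Some element `π` of `U` is mapped to the projector onto `gr j` by `T`. -/
def HasProjectorIn {A : Type v} [AddCommGroup A] [Module ℚ A] {K : Type w} [Field K] {V : Type w}
    [AddCommGroup V] [Module K V] (U : Submodule ℚ A) (T : A → (V →ₗ[K] V))
    (gr : ℕ → Submodule K V) (j : ℕ) : Prop :=
  ∃ π ∈ U, IsProjector gr j (T π)

/-- The standard conjecture of Künneth type for `X`: for each `j` there is a correspondence in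
`CH^(dim X)(X × X)` which acts on `H^*(X)` as the projector onto `H^j(X)`. -/
def KunnethFor (W : WeilTheory.{u, v, w} C) (X : 𝒱.Obj) : Prop :=
  ∀ j : ℕ, HasProjectorIn (C.gr (X.prod X) X.dim) W.act (W.gr X) j

/-- Each homologically trivial correspondence in `CH^(dim X)(X × X)` is algebraic. -/
def HomTrivAlgebraic (W : WeilTheory.{u, v, w} C) (X : 𝒱.Obj) : Prop :=
  ∀ γ, HomTriv W X γ → Algebraic C γ

end Pool.Agent.R368
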